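import Mathlib
import Pool.Agent.Helper65.EV.Null
import Pool.Agent.Helper65.EN.Null2

/-!
# Near the degenerations to the identity almost no rational map has an invariant line field

The rational maps of degree `d` form an open subset of the projective space of the pairs `(A, B)` of
polynomials of degree at most `d`. Its boundary contains the pairs `(z Q, Q)` with `Q` of degree at
most `d - 1`, the pairs which induce the identity map. We prove that at every such pair (`Q ≠ 0`)
the rational maps of degree `d` whose Julia set has area zero, so that it carries no invariant line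
field, have Lebesgue density one. There is no other condition on the maps: all the `2 d + 1`
(projective) coefficients are free.

Idea of the proof: near `(z Q, Q)` the map is one step of Euler's method with a small step for a
rational vector field on the sphere. For almost all directions of approach the trajectories of the
field through its poles, and through the points to which the other critical points jump, end in
sinks, and the orbits of the critical points follow them. So the map is hyperbolic, all critical
points enter finitely many discs which are mapped into themselves. After a change of coordinates the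
complement of these discs is a region in which all inverse branches exist; Koebe's theorem shows
that the Julia set is porous, so its area is zero.
-/

set_option autoImplicit false

open Filter Topology MeasureTheory Polynomial

namespace Pool.Agent.Results.MP_70a088_an.NearIdentityMaps

/-- The space of the coefficient vectors of pairs of polynomials of degree at most `d`: the complex
numbers `x (0, j)` and `x (1, j)`, `0 ≤ j ≤ d`, are the coefficients of the first and of the second
polynomial. It carries the maximum norm and the Lebesgue measure. -/
abbrev Coefficients (d : ℕ) : Type := Fin 2 × Fin (d + 1) → ℂ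

/-- The first (`i = 0`) and the second (`i = 1`) polynomial of the pair with coefficients `x`. -/
noncomputable def poly {d : ℕ} (x : Coefficients d) (i : Fin 2) : ℂ[X] :=
  ∑ j : Fin (d + 1), monomial (j : ℕ) (x (i, j))

/-- The coefficient vector of the pair `(z Q, Q)`. -/
noncomputable def identityPoint (d : ℕ) (Q : ℂ[X]) : Coefficients d :=
  fun ij => if ij.1 = 0 then (X * Q).coeff ij.2 else Q.coeff ij.2

/-- `f` is the self-map of the Riemann sphere given by the rational function `P / Q` of degree `d`,
in lowest terms. -/
def IsRational (d : ℕ) (P Q : ℂ[X]) (f : OnePoint ℂ → OnePoint ℂ) : Prop :=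
  IsCoprime P Q ∧ max P.natDegree Q.natDegree = d ∧ Continuous f ∧
    ∀ z : ℂ, Q.eval z ≠ 0 → f (z : OnePoint ℂ) = ((P.eval z / Q.eval z : ℂ) : OnePoint ℂ)

/-- The Fatou set: the points with a neighbourhood on which the iterates are equicontinuous (the
neighbourhoods `W` of the diagonal are the entourages of the uniform structure of the sphere). -/
def fatou (f : OnePoint ℂ → OnePoint ℂ) : Set (OnePoint ℂ) :=
  {x | ∃ U ∈ 𝓝 x, ∀ y ∈ U, ∀ W ∈ 𝓝ˢ (Set.diagonal (OnePoint ℂ)),
    ∀ᶠ z in 𝓝 y, ∀ n : ℕ, (f^[n] y, f^[n] z) ∈ W}

/-- The finite points of the Julia set. -/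
def julia (f : OnePoint ℂ → OnePoint ℂ) : Set ℂ := {z : ℂ | (z : OnePoint ℂ) ∉ fatou f}

/-- The rational function `P / Q` of the plane. -/
noncomputable def map (P Q : ℂ[X]) : ℂ → ℂ := fun z => P.eval z / Q.eval z

/-- `μ` is an invariant line field of `f = P / Q` supported on the Julia set; it is of absolute value
one on the set `S` of positive measure, and vanishes off `S`. -/
structure LineField (P Q : ℂ[X]) (f : OnePoint ℂ → OnePoint ℂ) (μ : ℂ → ℂ) (S : Set ℂ) : Prop where
  meas : Measurable μ
  one : ∀ z ∈ S, ‖μ z‖ = 1
  off : ∀ z, z ∉ S → μ z = 0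
  pos : 0 < volume S
  sub : S ⊆ julia f
  inv : ∀ᵐ z : ℂ,
    μ (map P Q z) * (starRingEnd ℂ (deriv (map P Q) z) / deriv (map P Q) z) = μ z

/-- The pairs in the ball of radius `r` around the pair `(z Q, Q)` which are not rational maps of
degree `d` with a Julia set of area zero and without invariant line field on the Julia set. -/
def Bad (d : ℕ) (Q : ℂ[X]) (r : ℝ) : Set (Coefficients d) :=
  {x | ‖x - identityPoint d Q‖ ≤ r ∧
    ¬ ∃ f : OnePoint ℂ → OnePoint ℂ, IsRational d (poly x 0) (poly x 1) f ∧ volume (julia f) = 0 ∧
      ¬ ∃ (μ : ℂ → ℂ) (S : Set ℂ), LineField (poly x 0) (poly x 1) f μ S}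

/-- **No invariant line fields near the degenerations to the identity.** Let `d ≥ 2` and let `Q` be
a nonzero polynomial of degree at most `d - 1`. The part of the ball of radius `r` around the pair
`(z Q, Q)` which does not consist of rational maps of degree `d` whose Julia set has area zero and
carries no invariant line field has relative Lebesgue measure tending to zero as `r → 0`. -/
theorem result (d : ℕ) (hd : 2 ≤ d) (Q : ℂ[X]) (hQ : Q ≠ 0) (hdeg : Q.natDegree + 1 ≤ d) :
    Tendsto (fun r : ℝ => volume (Bad d Q r) / volume (Metric.closedBall (identityPoint d Q) r))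
      (𝓝[>] 0) (𝓝 0) := by
  obtain ⟨n, rfl⟩ : ∃ n, d = n + 1 := ⟨d - 1, by omega⟩
  have hn : Q.natDegree ≤ n := by omega
  have h1 : Pool.Agent.H790R3.RB.pol (identityPoint (n + 1) Q) 1 = Q := by
    ext j
    by_cases hj : j < n + 1 + 1
    · have := Pool.Agent.H790R3.RB.PQ.pol_coeff (identityPoint (n + 1) Q) 1 ⟨j, hj⟩
      simp only at this
      rw [this]
      simp [identityPoint]
    · rw [Pool.Agent.H790R3.RB.PQ.pol_coeff_gt _ _ _ (by omega),
        coeff_eq_zero_of_natDegree_lt (by omega)]
  have h0 : Pool.Agent.H790R3.RB.pol (identityPoint (n + 1) Q) 0 = X * Q := by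
    ext j
    by_cases hj : j < n + 1 + 1
    · have := Pool.Agent.H790R3.RB.PQ.pol_coeff (identityPoint (n + 1) Q) 0 ⟨j, hj⟩
      simp only at this
      rw [this]
      simp [identityPoint]
    · rw [Pool.Agent.H790R3.RB.PQ.pol_coeff_gt _ _ _ (by omega), coeff_eq_zero_of_natDegree_lt]
      refine lt_of_le_of_lt natDegree_mul_le ?_
      rw [natDegree_X]
      omega
  have h2 := Pool.Agent.Helper65.EU.density (Pool.Agent.Helper65.EU.Gset_open (n + 1))
    (identityPoint (n + 1) Q) (Pool.Agent.Helper65.EV.ae_dir (by omega)
    (x0 := identityPoint (n + 1) Q) (by rw [h1]; exact h0) (by rw [h1]; exact hn)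
    (by rw [h1]; exact hQ))
  apply tendsto_of_tendsto_of_tendsto_of_le_of_le tendsto_const_nhds h2
  · intro r
    exact zero_le
  · intro r
    apply ENNReal.div_le_div_right
    apply measure_mono
    rintro x ⟨hx1, hx2⟩
    refine ⟨by rw [mem_closedBall_iff_norm]; exact hx1, fun hG => hx2 ?_⟩
    obtain ⟨⟨f, hf⟩, h3, h4⟩ := Pool.Agent.Helper65.EN.gset_null hd hG
    have h5 : volume (julia f) = 0 := h4 f hf
    refine ⟨f, ⟨hf.cop, h3, hf.cont, hf.eval⟩, h5, ?_⟩
    rintro ⟨μ, S, hS⟩
    exact hS.pos.ne' (measure_mono_null hS.sub h5)

end Pool.Agent.Results.MP_70a088_an.NearIdentityMaps
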