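import Mathlib
import Pool.Agent.Helper65.EP.AllN

/-!
# No invariant line fields near parabolic maps and near boundary points of the space of rational maps

Let `φ = P / Q` be a rational map of degree `e ≥ 1` all of whose critical points are attracted by
attracting cycles or by nondegenerate parabolic cycles, and let `d ≥ e`, `d ≥ 2`. For `e = d` we
consider the coefficient vector of `φ` itself in the space of all pairs of polynomials of degree at
most `d`; for `e < d` the boundary points `(H P, H Q)`, where `H` is a squarefree polynomial of degree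
`d - e` such that its zeros, the holes, are attracted in the same way and the attracting cycles and
the forward orbits avoid them. We prove that at this point the rational maps of degree `d` whose Julia
set has area zero, so that it carries no invariant line field, have Lebesgue density one. All the
coefficients of the maps are free.

Idea of the proof: on almost every complex line through the point, for all but countably many
arguments of the parameter, the parabolic cycles split into simple cycles one of which is attracting,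
and the orbits of the critical points which arrive in the petals converge to it. So the map has a
trapping region which all critical points enter; Koebe's theorem shows that the complement of the
preimages of this region is porous, so its area is zero.
-/

set_option autoImplicit false

open Filter Topology MeasureTheory Polynomial

namespace Pool.Agent.Results.MP_70a088_an.ParabolicNeighbourhoods

/-- The space of the coefficient vectors of pairs of polynomials of degree at most `d`: the complex
numbers `x (0, j)` and `x (1, j)`, `0 ≤ j ≤ d`, are the coefficients of the first and of the second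
polynomial. It carries the maximum norm and the Lebesgue measure. -/
abbrev Coefficients (d : ℕ) : Type := Fin 2 × Fin (d + 1) → ℂ

/-- The first (`i = 0`) and the second (`i = 1`) polynomial of the pair with coefficients `x`. -/
noncomputable def poly {d : ℕ} (x : Coefficients d) (i : Fin 2) : ℂ[X] :=
  ∑ j : Fin (d + 1), monomial (j : ℕ) (x (i, j))

/-- `f` is the self-map of the Riemann sphere given by the rational function `P / Q` of degree `d`,
in lowest terms. -/
def IsRational (d : ℕ) (P Q : ℂ[X]) (f : OnePoint ℂ → OnePoint ℂ) : Prop :=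
  IsCoprime P Q ∧ max P.natDegree Q.natDegree = d ∧ Continuous f ∧
    ∀ z : ℂ, Q.eval z ≠ 0 → f (z : OnePoint ℂ) = ((P.eval z / Q.eval z : ℂ) : OnePoint ℂ)

/-- The critical points of a rational map: it is not injective near them. -/
def IsCritical (f : OnePoint ℂ → OnePoint ℂ) (c : OnePoint ℂ) : Prop :=
  ¬ ∃ U ∈ 𝓝 c, Set.InjOn f U

/-- The local coordinate at a point of the Riemann sphere: `w ↦ a + w` at a point `a` of the plane
and `w ↦ 1 / w` at infinity. -/
noncomputable def chart (a : OnePoint ℂ) (w : ℂ) : OnePoint ℂ :=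
  match a with
  | none => open Classical in if w = 0 then OnePoint.infty else OnePoint.some w⁻¹
  | some a => OnePoint.some (a + w)

/-- `a` is a fixed point of `f` of multiplier `ρ` with `|ρ| < 1`; `g` is the map `f` in the local
coordinate at `a`. -/
def IsAttractingFixed (f : OnePoint ℂ → OnePoint ℂ) (a : OnePoint ℂ) : Prop :=
  ∃ (g : ℂ → ℂ) (ρ : ℂ), ‖ρ‖ < 1 ∧ g 0 = 0 ∧ HasDerivAt g ρ 0 ∧
    ∀ᶠ w in 𝓝 (0 : ℂ), f (chart a w) = chart a (g w)

/-- `a` is a nondegenerate parabolic fixed point of `f`: the multiplier `ρ` is a primitive `q`-th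
root of unity and `f^q` is `w + C w ^ (q + 1) + o (w ^ (q + 1))` with `C ≠ 0` in the local
coordinate at `a`. -/
def IsNondegenerateParabolicFixed (q : ℕ) (f : OnePoint ℂ → OnePoint ℂ) (a : OnePoint ℂ) : Prop :=
  ∃ (g : ℂ → ℂ) (ρ C : ℂ), IsPrimitiveRoot ρ q ∧ C ≠ 0 ∧ g 0 = 0 ∧ HasDerivAt g ρ 0 ∧
    Tendsto (fun w => (g^[q] w - w) / w ^ (q + 1)) (𝓝[≠] 0) (𝓝 C) ∧
    ∀ᶠ w in 𝓝 (0 : ℂ), f (chart a w) = chart a (g w)

/-- The holes: the zeros of the common factor `H`. -/
def IsHole (H : ℂ[X]) (c : OnePoint ℂ) : Prop := ∃ z : ℂ, H.eval z = 0 ∧ c = (z : OnePoint ℂ)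

/-- No point `a, f a, f (f a), …` is a hole. -/
def AvoidsHoles (H : ℂ[X]) (f : OnePoint ℂ → OnePoint ℂ) (a : OnePoint ℂ) : Prop :=
  ∀ j : ℕ, ¬ IsHole H (f^[j] a)

/-- The orbit of `c` converges to an attracting cycle of `f` which avoids the holes. -/
def InAttractingBasin (H : ℂ[X]) (f : OnePoint ℂ → OnePoint ℂ) (c : OnePoint ℂ) : Prop :=
  ∃ (a : OnePoint ℂ) (n : ℕ), 0 < n ∧ IsAttractingFixed (f^[n]) a ∧ AvoidsHoles H f a ∧
    Tendsto (fun k : ℕ => f^[n * k] c) atTop (𝓝 a)

/-- The orbit of `c` converges to a nondegenerate parabolic cycle of `f` which avoids the holes, and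
does not land on it. -/
def InParabolicBasin (H : ℂ[X]) (f : OnePoint ℂ → OnePoint ℂ) (c : OnePoint ℂ) : Prop :=
  ∃ (a : OnePoint ℂ) (p q : ℕ), 0 < p ∧ 1 ≤ q ∧ IsNondegenerateParabolicFixed q (f^[p]) a ∧
    AvoidsHoles H f a ∧
    Tendsto (fun k : ℕ => f^[p * q * k] c) atTop (𝓝 a) ∧ ∀ k : ℕ, f^[p * q * k] c ≠ a

/-- The Fatou set: the points with a neighbourhood on which the iterates are equicontinuous (the
neighbourhoods `W` of the diagonal are the entourages of the uniform structure of the sphere). -/
def fatou (f : OnePoint ℂ → OnePoint ℂ) : Set (OnePoint ℂ) :=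
  {x | ∃ U ∈ 𝓝 x, ∀ y ∈ U, ∀ W ∈ 𝓝ˢ (Set.diagonal (OnePoint ℂ)),
    ∀ᶠ z in 𝓝 y, ∀ n : ℕ, (f^[n] y, f^[n] z) ∈ W}

/-- The finite points of the Julia set. -/
def julia (f : OnePoint ℂ → OnePoint ℂ) : Set ℂ := {z : ℂ | (z : OnePoint ℂ) ∉ fatou f}

/-- The rational function `P / Q` of the plane. -/
noncomputable def map (P Q : ℂ[X]) : ℂ → ℂ := fun z => P.eval z / Q.eval z

/-- `μ` is an invariant line field of `f = P / Q` supported on the Julia set; it is of absolute value
one on the set `S` of positive measure, and vanishes off `S`. -/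
structure LineField (P Q : ℂ[X]) (f : OnePoint ℂ → OnePoint ℂ) (μ : ℂ → ℂ) (S : Set ℂ) : Prop where
  meas : Measurable μ
  one : ∀ z ∈ S, ‖μ z‖ = 1
  off : ∀ z, z ∉ S → μ z = 0
  pos : 0 < volume S
  sub : S ⊆ julia f
  inv : ∀ᵐ z : ℂ,
    μ (map P Q z) * (starRingEnd ℂ (deriv (map P Q) z) / deriv (map P Q) z) = μ z

/-- The coefficient vectors in the ball of radius `r` around `x₀` which do not give a rational map of
degree `d` whose Julia set has area zero and carries no invariant line field. -/
def Bad (d : ℕ) (x₀ : Coefficients d) (r : ℝ) : Set (Coefficients d) :=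
  {x | ‖x - x₀‖ ≤ r ∧
    ¬ ∃ f : OnePoint ℂ → OnePoint ℂ, IsRational d (poly x 0) (poly x 1) f ∧ volume (julia f) = 0 ∧
      ¬ ∃ (μ : ℂ → ℂ) (S : Set ℂ), LineField (poly x 0) (poly x 1) f μ S}

/-- **No invariant line fields near parabolic maps and boundary points.** Let `1 ≤ e ≤ d`, `d ≥ 2`,
let `φ = P / Q` be a rational map of degree `e` and let `H` be a squarefree polynomial of degree
`d - e` (a nonzero constant if `e = d`). Suppose that all critical points `c` of `φ` and all holes `c`
are attracted by attracting or nondegenerate parabolic cycles of `φ`, and that these cycles and the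
orbits `φ (c), φ (φ (c)), …` avoid the holes. Let `x₀` be the coefficient vector of the pair
`(H P, H Q)`. Then the part of the ball of radius `r` around `x₀` which does not consist of rational
maps of degree `d` whose Julia set has area zero and carries no invariant line field has relative
Lebesgue measure tending to zero as `r → 0`. -/
theorem result (d e : ℕ) (hd : 2 ≤ d) (he : 1 ≤ e) (hed : e ≤ d) (P Q H : ℂ[X])
    (φ : OnePoint ℂ → OnePoint ℂ) (hφ : IsRational e P Q φ) (hH : Squarefree H)
    (hHd : H.natDegree = d - e) (x₀ : Coefficients d) (h0 : poly x₀ 0 = H * P)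
    (h1 : poly x₀ 1 = H * Q)
    (hcrit : ∀ c : OnePoint ℂ, IsCritical φ c ∨ IsHole H c →
      AvoidsHoles H φ (φ c) ∧ (InAttractingBasin H φ c ∨ InParabolicBasin H φ c)) :
    Tendsto (fun r : ℝ => volume (Bad d x₀ r) / volume (Metric.closedBall x₀ r)) (𝓝[>] 0)
      (𝓝 0) := by
  obtain ⟨g1, g2, g3, g4⟩ := hφ
  have hNu : Pool.Agent.Helper65.EP.S_cnull := Pool.Agent.Helper65.EP.cnull
  obtain ⟨Gd, hGd, hlim⟩ := Pool.Agent.Helper65.EP.all_N hNu he hd hed g1 g2 g3 g4 hH hHd
    (x0 := x₀) h0 h1 (by
      intro c hc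
      obtain ⟨k1, k2⟩ := hcrit c hc
      refine ⟨fun j hj => ?_, ?_⟩
      · obtain ⟨i, rfl⟩ : ∃ i, j = i + 1 := ⟨j - 1, by omega⟩
        rw [Function.iterate_succ_apply]
        exact k1 i
      · rcases k2 with ⟨a, n, hn, h5, h8, h6⟩ | ⟨a, p, q, hp, hq, h5, h8, h6, h7⟩
        · exact ⟨a, n, hn, h6, h8, Or.inl h5⟩
        · exact ⟨a, p * q, Nat.mul_pos hp (by omega), h6, h8, Or.inr ⟨⟨p, q, hp, hq, rfl, h5⟩, h7⟩⟩)
  refine tendsto_of_tendsto_of_tendsto_of_le_of_le tendsto_const_nhds hlim (fun _ => zero_le) ?_
  intro r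
  refine ENNReal.div_le_div_right (measure_mono ?_) _
  rintro x ⟨h5, h6⟩
  refine ⟨mem_closedBall_iff_norm.2 h5, fun h7 => h6 ?_⟩
  obtain ⟨h8, -, h9⟩ := hGd x h7
  obtain ⟨k1, k2, -, -, k5⟩ := ((Pool.Agent.H790R3.RB.PQ Pool.Agent.H790R3.RB.SP) d
    (by omega)).1 x h8
  have h10 : volume (julia (Pool.Agent.H790R3.RB.sp x)) = 0 := h9
  refine ⟨Pool.Agent.H790R3.RB.sp x, ⟨k1, k2, (Pool.Agent.H790R3.RB.SP d x (by omega) h8).1, k5⟩,
    h10, ?_⟩
  rintro ⟨μ, S, hS⟩
  exact hS.pos.ne' (measure_mono_null hS.sub h10)

end Pool.Agent.Results.MP_70a088_an.ParabolicNeighbourhoods
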