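import Mathlib
import Pool.Prelude.Def_F_c31e40fa
import Pool.Agent.Helper95.GP.Fam
import Pool.Graph.R_pool_sql_team_seeded_63374d34.N634.LF.Line

/-!
# Invariant line fields near topologically typical unicritical polynomials

Let `d ≥ 2`, let `M` be the Multibrot set of degree `d`, and let `c₀` be a point of a certain residual
subset of the boundary of `M`. We consider ALL polynomials `T` of degree `d` whose coefficients are
within `r` of those of `z ^ d + c₀`, and the discs `T + t`, `|t| ≤ r`, of their translation families.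

(A) For arbitrarily small `r`: for EVERY such `T` all `t` up to a set of area `r ^ E` (every
`E < 2 d / (d - 1)`, where `2 d / (d - 1) > 2`) are such that all critical points of `T + t` escape.

(B) For arbitrarily small `r`: for EVERY such `T` all `t` up to the proportion `ε` (every `ε > 0`) are
such that one sink attracts all critical points of `T + t`.

In both cases the Julia set of `T + t` is a null set and carries no invariant line field. So along
the scales of (A), and along those of (B), polynomials with invariant line fields are rare in every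
translation family near `z ^ d + c₀`; and both kinds of scales occur.

(C), (D): the corresponding statements on the volume in the space of coefficients.
-/

set_option autoImplicit false

open MeasureTheory Filter Metric Topology Polynomial

namespace Pool.Agent.Results.MP_70a088_an.TypicalFamilies

open N62a1eb23 (multibrotSet)

/-- The polynomial as a self-map of the plane. -/
def map (T : ℂ[X]) : ℂ → ℂ := fun z : ℂ => T.eval z

/-- The filled Julia set: the points whose orbits do not tend to infinity. -/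
def filled (T : ℂ[X]) : Set ℂ :=
  {z : ℂ | ¬ Tendsto (fun k : ℕ => ‖(map T)^[k] z‖) atTop atTop}

/-- The Julia set. -/
def julia (T : ℂ[X]) : Set ℂ := frontier (filled T)

/-- `μ` is an invariant line field supported on the Julia set of `T`; it is of absolute value one on
the set `S` of positive measure, and vanishes off `S`. -/
structure LineField (T : ℂ[X]) (μ : ℂ → ℂ) (S : Set ℂ) : Prop where
  meas : Measurable μ
  one : ∀ z ∈ S, ‖μ z‖ = 1
  off : ∀ z, z ∉ S → μ z = 0
  pos : 0 < volume S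
  sub : S ⊆ julia T
  inv : ∀ᵐ z : ℂ, μ (map T z) * (starRingEnd ℂ (deriv (map T) z) / deriv (map T) z) = μ z

/-- The Julia set of `T` is a null set, and `T` has no invariant line field supported on it. -/
def Rigid (T : ℂ[X]) : Prop :=
  volume (julia T) = 0 ∧ ¬ ∃ (μ : ℂ → ℂ) (S : Set ℂ), LineField T μ S

/-- All critical points escape to infinity. -/
def Shift (T : ℂ[X]) : Prop :=
  ∀ c : ℂ, T.derivative.eval c = 0 → Tendsto (fun k : ℕ => ‖(map T)^[k] c‖) atTop atTop

/-- One sink attracts all critical points. -/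
def OneSink (T : ℂ[X]) : Prop :=
  ∃ (n : ℕ) (x : ℂ), 0 < n ∧ (map T)^[n] x = x ∧ ‖deriv ((map T)^[n]) x‖ < 1 ∧
    ∀ c : ℂ, T.derivative.eval c = 0 → Tendsto (fun k : ℕ => (map T)^[n * k] c) atTop (𝓝 x)

/-- The polynomials of degree at most `d` whose coefficients are within `r` of those of the
polynomial `z ^ d + c₀`. -/
def near (d : ℕ) (c₀ : ℂ) (r : ℝ) : Set ℂ[X] :=
  {T | T.natDegree ≤ d ∧ ∀ i : ℕ, ‖T.coeff i - (X ^ d + C c₀ : ℂ[X]).coeff i‖ ≤ r}

/-- The polynomial with the given coefficients. -/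
noncomputable def poly {d : ℕ} (a : Fin (d + 1) → ℂ) : ℂ[X] :=
  ∑ i : Fin (d + 1), C (a i) * X ^ (i : ℕ)

/-- The vectors of coefficients (of the degrees `0, …, d`) within `r` of those of `z ^ d + c₀`. -/
def box (d : ℕ) (c₀ : ℂ) (r : ℝ) : Set (Fin (d + 1) → ℂ) :=
  closedBall (fun i : Fin (d + 1) => (X ^ d + C c₀ : ℂ[X]).coeff i) r

/-- The proportion of the polynomials with the property `S` in the box of radius `r` about
`z ^ d + c₀`. -/
noncomputable def proportion (d : ℕ) (S : ℂ[X] → Prop) (c₀ : ℂ) (r : ℝ) : ℝ :=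
  (volume ({a : Fin (d + 1) → ℂ | S (poly a)} ∩ box d c₀ r)).toReal / (volume (box d c₀ r)).toReal

theorem rigid_of_null {T : ℂ[X]} (h : volume (julia T) = 0) : Rigid T := by
  refine ⟨h, ?_⟩
  rintro ⟨μ, S, hS⟩
  exact hS.pos.ne' (measure_mono_null hS.sub h)

theorem rigid_of_shift {T : ℂ[X]} (hT : 2 ≤ T.natDegree) (h : Shift T) : Rigid T := by
  apply rigid_of_null
  have h1 : Pool.Agent.N634.LF.Hyperbolic T := fun c hc => Or.inl (h c hc)
  exact (h1.rigid hT).1

theorem rigid_of_sink {T : ℂ[X]} (hT : 2 ≤ T.natDegree) (h : OneSink T) : Rigid T := by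
  apply rigid_of_null
  obtain ⟨n, x, h1, h2, h3, h4⟩ := h
  have h5 : Pool.Agent.N634.LF.Hyperbolic T := fun c hc => Or.inr ⟨n, h1, x, h2, h3, h4 c hc⟩
  exact (h5.rigid hT).1

theorem not_escape {T : ℂ[X]} {n : ℕ} {x c : ℂ} (hn : 0 < n)
    (h : Tendsto (fun k : ℕ => (map T)^[n * k] c) atTop (𝓝 x)) :
    ¬ Tendsto (fun k : ℕ => ‖(map T)^[k] c‖) atTop atTop := by
  intro h1
  have h2 : Tendsto (fun k : ℕ => ‖(map T)^[n * k] c‖) atTop atTop :=
    h1.comp (tendsto_id.const_mul_atTop' hn)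
  exact not_tendsto_atTop_of_tendsto_nhds h.norm h2

theorem natDegree_near {d : ℕ} (hd : 2 ≤ d) {c₀ : ℂ} {r : ℝ} (hr : r < 1) {a : Fin (d + 1) → ℂ}
    (hr0 : 0 ≤ r) (ha : a ∈ box d c₀ r) : 2 ≤ (poly a).natDegree := by
  have h1 : (poly a) ∈ Pool.Agent.Y272.GA.Nr d c₀ r := by
    apply Pool.Agent.Y272.GA.nr_box hr0
    unfold box at ha
    rw [mem_closedBall, dist_eq_norm, pi_norm_le_iff_of_nonneg hr0] at ha
    exact ha
  exact Pool.Agent.Y272.GA.two_le_deg hd hr (h1.2 d)

theorem natDegree_poly {d : ℕ} {a : Fin (d + 1) → ℂ} (h : a (Fin.last d) ≠ 0) :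
    (poly a).natDegree = d :=
  Pool.Agent.Results.MP_28f8a1_an.ExactVolumeScaling.natDegree_eq h

theorem not_shift {T : ℂ[X]} (hT : 2 ≤ T.natDegree) (h : OneSink T) : ¬ Shift T := by
  obtain ⟨n, x, h1, -, -, h4⟩ := h
  intro h5
  have h6 : T.derivative.natDegree = T.natDegree - 1 := natDegree_derivative T
  have h7 : T.derivative.degree ≠ 0 := by
    intro h3
    have h8 : T.derivative.natDegree = 0 := natDegree_eq_of_degree_eq_some (by simpa using h3)
    omega
  obtain ⟨c, hc⟩ := IsAlgClosed.exists_root _ h7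
  exact not_escape h1 (h4 c hc) (h5 c hc)

/-- Let `d ≥ 2`. (0) Polynomials of degree at least two all of whose critical points escape, or are
attracted by one sink, have null Julia sets without invariant line fields. In the first case even the
filled Julia set is a null set, and the two cases exclude each other.
For all `c₀` in a residual subset of the boundary of the Multibrot set of degree `d`:
(A) For every `E < 2 d / (d - 1)` there are arbitrarily small `r` such that for ALL `T` within `r` of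
`z ^ d + c₀` the `t` with `|t| ≤ r` such that `T + t` is not `Shift` have area at most `r ^ E`.
(B) For every `ε > 0` there are arbitrarily small `r` such that for ALL `T` within `r` of
`z ^ d + c₀` the `t` with `|t| ≤ r` such that `T + t` is `OneSink` have area at least
`(1 - ε) π r ^ 2`.
(C) For every `E < 2 / (d - 1)` there are arbitrarily small `r` such that in the box of radius `r`
about `z ^ d + c₀` the polynomials which are not `Shift`, and so those which are not `Rigid`, have
proportion less than `r ^ E`.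
(D) For every property `S` with `OneSink → S → not Shift` in degree `d` the set of cluster values, for
`r → 0`, of the proportion of `S` in the box of radius `r` about `z ^ d + c₀` is the interval
`[0, 1]`. -/
theorem result (d : ℕ) (hd : 2 ≤ d) :
    (∀ T : ℂ[X], 2 ≤ T.natDegree →
      (Shift T → volume (filled T) = 0 ∧ Rigid T) ∧ (OneSink T → ¬ Shift T ∧ Rigid T)) ∧
    ∀ᶠ c₀ : frontier (multibrotSet d) in residual (frontier (multibrotSet d)),
      (∀ E : ℝ, E < 2 * d / (d - 1) → ∃ᶠ r in 𝓝[>] (0 : ℝ), ∀ T ∈ near d (c₀ : ℂ) r,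
        volume {t : ℂ | ‖t‖ ≤ r ∧ ¬ Shift (T + C t)} ≤ ENNReal.ofReal (r ^ E)) ∧
      (∀ ε : ℝ, 0 < ε → ∃ᶠ r in 𝓝[>] (0 : ℝ), ∀ T ∈ near d (c₀ : ℂ) r,
        ENNReal.ofReal ((1 - ε) * (Real.pi * r ^ 2)) ≤
          volume {t : ℂ | ‖t‖ ≤ r ∧ OneSink (T + C t)}) ∧
      (∀ E : ℝ, E < 2 / (d - 1) → ∃ᶠ r in 𝓝[>] (0 : ℝ),
        proportion d (fun T => ¬ Rigid T) (c₀ : ℂ) r ≤ proportion d (fun T => ¬ Shift T) (c₀ : ℂ) r ∧
        proportion d (fun T => ¬ Shift T) (c₀ : ℂ) r < r ^ E) ∧
      ∀ S : ℂ[X] → Prop, (∀ T : ℂ[X], T.natDegree = d → OneSink T → S T) →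
        (∀ T : ℂ[X], T.natDegree = d → S T → ¬ Shift T) → ∀ α : ℝ,
          MapClusterPt α (𝓝[>] 0) (proportion d S (c₀ : ℂ)) ↔ α ∈ Set.Icc (0 : ℝ) 1 := by
  have hdR : (2 : ℝ) ≤ d := by exact_mod_cast hd
  have hd1 : 0 < (d : ℝ) - 1 := by linarith
  have hF : 0 < 1 / ((d : ℝ) - 1) := by positivity
  have hpi := Real.pi_pos
  have hZ : Pool.Agent.Y272.GA.S_ZERO := Pool.Agent.Y331.GJ.t
  have hσ : 2 * ((d : ℝ) + 1) + 1 / ((d : ℝ) - 1) < 2 * ((d : ℝ) + 1) + 2 / ((d : ℝ) - 1) := by
    have : 2 / ((d : ℝ) - 1) = 1 / ((d : ℝ) - 1) + 1 / ((d : ℝ) - 1) := by ring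
    linarith
  refine ⟨fun T hT => ⟨fun h => ⟨hZ T hT h, rigid_of_shift hT h⟩,
    fun h => ⟨not_shift hT h, rigid_of_sink hT h⟩⟩, ?_⟩
  filter_upwards [Pool.Agent.Helper95.GP.shift_residual hd, Pool.Agent.Helper95.GP.fam_residual hd,
    Pool.Agent.Helper95.GP.thick_residual hd, Pool.Agent.Helper95.GP.thin_residualP hd]
    with c₀ hA hB hC hD
  have hr1 : ∀ᶠ r in 𝓝[>] (0 : ℝ), r < 1 := mem_nhdsWithin_of_mem_nhds (gt_mem_nhds one_pos)
  have hsame : ∀ (S : ℂ[X] → Prop) (r : ℝ), r < 1 → {a : Fin (d + 1) → ℂ | S (poly a)} ∩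
      box d (c₀ : ℂ) r = {a : Fin (d + 1) → ℂ | a (Fin.last d) ≠ 0 ∧ S (poly a)} ∩
        box d (c₀ : ℂ) r := by
    intro S r hr
    ext a
    constructor
    · rintro ⟨h1, h2⟩
      exact ⟨⟨Pool.Agent.Results.MP_28f8a1_an.ExactVolumeScaling.last_ne hd hr h2, h1⟩, h2⟩
    · rintro ⟨⟨-, h1⟩, h2⟩
      exact ⟨h1, h2⟩
  have hNS : {a : Fin (d + 1) → ℂ | a (Fin.last d) ≠ 0 ∧ ¬ Shift (poly a)} =
      Pool.Agent.Results.MP_28f8a1_an.ExactVolumeScaling.NonShift d := by
    ext a
    constructor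
    · rintro ⟨h1, h2⟩
      unfold Shift at h2
      push Not at h2
      obtain ⟨c, h3, h4⟩ := h2
      exact ⟨h1, c, h3, h4⟩
    · rintro ⟨h1, c, h3, h4⟩
      exact ⟨h1, fun h5 => h4 (h5 c h3)⟩
  refine ⟨hA, hB, ?_, ?_⟩
  · intro E hE
    refine ((hD (2 * ((d : ℝ) + 1) + E) (by linarith)).and_eventually
      (hr1.and self_mem_nhdsWithin)).mono ?_
    rintro r ⟨h1, h2, h3⟩
    have hr0 : 0 < r := h3
    have hV : (volume (box d (c₀ : ℂ) r)).toReal = (Real.pi * r ^ 2) ^ (d + 1) :=
      Pool.Agent.Helper95.GP.VV_univ (c₀ : ℂ) hr0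
    have hfin : volume ({a : Fin (d + 1) → ℂ | ¬ Shift (poly a)} ∩ box d (c₀ : ℂ) r) ≠ ⊤ :=
      ((measure_mono Set.inter_subset_right).trans_lt measure_closedBall_lt_top).ne
    constructor
    · unfold proportion
      apply div_le_div_of_nonneg_right _ ENNReal.toReal_nonneg
      apply ENNReal.toReal_mono hfin
      apply measure_mono
      rintro a ⟨h4, h5⟩
      exact ⟨fun h6 => h4 (rigid_of_shift (natDegree_near hd h2 hr0.le h5) h6), h5⟩
    · have h9 : ({a : Fin (d + 1) → ℂ | ¬ Shift (poly a)} ∩ box d (c₀ : ℂ) r) =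
          {a : Fin (d + 1) → ℂ | a (Fin.last d) ≠ 0 ∧ ¬ Shift (poly a)} ∩ box d (c₀ : ℂ) r :=
        hsame (fun T => ¬ Shift T) r h2
      show (volume ({a : Fin (d + 1) → ℂ | ¬ Shift (poly a)} ∩ box d (c₀ : ℂ) r)).toReal /
        (volume (box d (c₀ : ℂ) r)).toReal < r ^ E
      rw [hV, h9, hNS, div_lt_iff₀ (by positivity)]
      have h6 : (volume (Pool.Agent.Results.MP_28f8a1_an.ExactVolumeScaling.NonShift d ∩
          box d (c₀ : ℂ) r)).toReal < r ^ (2 * ((d : ℝ) + 1) + E) := h1
      refine h6.trans_le ?_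
      have e1 : r ^ (2 * ((d : ℝ) + 1)) = r ^ (2 * (d + 1)) := by
        rw [← Real.rpow_natCast]
        congr 1
        push_cast
        ring
      have h7 : (1 : ℝ) ≤ Real.pi ^ (d + 1) := one_le_pow₀ (by linarith [Real.pi_gt_three])
      rw [Real.rpow_add hr0, mul_pow, ← pow_mul, e1, mul_comm (r ^ (2 * (d + 1)))]
      have h8 : 0 < r ^ E := Real.rpow_pos_of_pos hr0 E
      calc r ^ E * r ^ (2 * (d + 1)) = r ^ E * (1 * r ^ (2 * (d + 1))) := by ring
        _ ≤ r ^ E * (Real.pi ^ (d + 1) * r ^ (2 * (d + 1))) := by gcongr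
  · intro S hS1 hS2 α
    obtain ⟨S', hS'⟩ : ∃ S' : Set (Fin (d + 1) → ℂ), S' = {a : Fin (d + 1) → ℂ |
      a (Fin.last d) ≠ 0 ∧ S (poly a)} := ⟨_, rfl⟩
    have hS'1 : Pool.Agent.Results.MP_28f8a1_an.ExactVolumeScaling.OneSink d ⊆ S' := by
      rw [hS']
      rintro a ⟨h1, h2⟩
      exact ⟨h1, hS1 _ (natDegree_poly h1) h2⟩
    have hS'2 : S' ⊆ Pool.Agent.Results.MP_28f8a1_an.ExactVolumeScaling.NonShift d := by
      rw [hS', ← hNS]
      rintro a ⟨h1, h2⟩
      exact ⟨h1, hS2 _ (natDegree_poly h1) h2⟩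
    have hcong : proportion d S (c₀ : ℂ) =ᶠ[𝓝[>] 0] Pool.Agent.Helper95.GP.prop S' (c₀ : ℂ) := by
      filter_upwards [hr1] with r hr
      unfold proportion
      rw [hsame S r hr, hS']
      rfl
    have hiff : MapClusterPt α (𝓝[>] 0) (proportion d S (c₀ : ℂ)) ↔
        MapClusterPt α (𝓝[>] 0) (Pool.Agent.Helper95.GP.prop S' (c₀ : ℂ)) := by
      unfold MapClusterPt
      rw [Filter.map_congr hcong]
    rw [hiff]
    refine ⟨fun hα => ?_, fun hα => ?_⟩
    · have hcl : IsClosed (Set.Icc (0 : ℝ) 1) := isClosed_Icc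
      refine hcl.mem_of_mapClusterPt hα ?_
      filter_upwards [self_mem_nhdsWithin] with r hr
      have hr0 : 0 < r := hr
      refine ⟨by unfold Pool.Agent.Helper95.GP.prop; positivity, ?_⟩
      unfold Pool.Agent.Helper95.GP.prop
      apply div_le_one_of_le₀ _ ENNReal.toReal_nonneg
      exact ENNReal.toReal_mono measure_closedBall_lt_top.ne (measure_mono Set.inter_subset_right)
    · apply Pool.Agent.Helper95.GP.cluster (S := S') (y := (c₀ : ℂ)) _ _ hα
      · intro ε hε
        refine ((hD _ hσ).and_eventually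
          (Pool.Agent.Helper95.GP.prop_small hd (S := S') (y := (c₀ : ℂ)) hS'2 hε)).mono ?_
        rintro r ⟨h3, h4⟩
        exact h4 h3
      · intro ε hε
        refine ((hC ε hε).and_eventually self_mem_nhdsWithin).mono ?_
        rintro r ⟨h1, hr⟩
        have hr0 : 0 < r := hr
        have hV : (volume (closedBall
            (Pool.Agent.Results.MP_28f8a1_an.ExactVolumeScaling.centre d (c₀ : ℂ)) r)).toReal =
              (Real.pi * r ^ 2) ^ (d + 1) :=
          Pool.Agent.Helper95.GP.VV_univ (c₀ : ℂ) hr0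
        unfold Pool.Agent.Helper95.GP.prop
        rw [hV, lt_div_iff₀ (by positivity)]
        exact h1.trans_le (Pool.Agent.Helper95.GP.VV_mono' hS'1 _ _)

end Pool.Agent.Results.MP_70a088_an.TypicalFamilies
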